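import Pool.Agent.Helper99.DF.St

/-!
# Project DF, module SU: the ratio of the next iterate
-/

set_option autoImplicit false

namespace Pool.Agent.Helper13.DF

open Pool.Agent.Helper99.DF

theorem one_site (h1 : StSA) (n D e0 Cc N : ℕ) (Zs lo hi : List ℕ) (ents : List Ent) (b : ℕ → ℤ)
    (hD : 0 < D) (hB : okB n D e0 Cc Zs lo hi ents) (hR : Rg n D e0 N Zs lo hi ents b)
    (j : ℕ) (hj : 0 < b j) :
    0 < T b j ∧ T b j ≤ b j ^ 2 ∧ (b j ^ 2) ^ 2 ≤ Cc * T b j ^ 2 := by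
  obtain ⟨a1, a2⟩ := h1 n D e0 Cc N Zs lo hi ents b hB hR
  have hT := (a1 j).1 hj
  obtain ⟨-, -, c3, c4⟩ := a2 j hj
  have hjn : j < n := by
    by_contra h
    have := hR.out j (by omega)
    omega
  obtain ⟨d1, d2⟩ := hB.1 j (List.mem_range.mpr hjn)
  have hDz : (0 : ℤ) < D := by exact_mod_cast hD
  have hb2 : 0 ≤ b j ^ 2 := by positivity
  refine ⟨hT, ?_, ?_⟩
  · have h2 : (D : ℤ) * T b j ≤ D * b j ^ 2 := by
      refine c4.trans ?_
      have h3 : (0 : ℤ) ≤ (ex lo j : ℤ) := by positivity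
      exact mul_le_mul_of_nonneg_right (by linarith) hb2
    exact le_of_mul_le_mul_left h2 hDz
  · have e1 : ((D - ex hi j : ℕ) : ℤ) = (D : ℤ) - ex hi j := by
      rw [Nat.cast_sub d1.le]
    have d2' : (D : ℤ) ^ 2 ≤ Cc * ((D : ℤ) - ex hi j) ^ 2 := by
      rw [← e1]
      exact_mod_cast d2
    have hpos : (0 : ℤ) ≤ (D : ℤ) - ex hi j := by
      rw [← e1]
      positivity
    have h2 : (((D : ℤ) - ex hi j) * b j ^ 2) ^ 2 ≤ ((D : ℤ) * T b j) ^ 2 :=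
      pow_le_pow_left₀ (mul_nonneg hpos hb2) c3 2
    have h3 : (D : ℤ) ^ 2 * (b j ^ 2) ^ 2 ≤ D ^ 2 * (Cc * T b j ^ 2) := by
      calc (D : ℤ) ^ 2 * (b j ^ 2) ^ 2 ≤ (Cc * ((D : ℤ) - ex hi j) ^ 2) * (b j ^ 2) ^ 2 :=
            mul_le_mul_of_nonneg_right d2' (by positivity)
        _ = Cc * (((D : ℤ) - ex hi j) * b j ^ 2) ^ 2 := by ring
        _ ≤ Cc * ((D : ℤ) * T b j) ^ 2 := mul_le_mul_of_nonneg_left h2 (by positivity)
        _ = D ^ 2 * (Cc * T b j ^ 2) := by ring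
    exact le_of_mul_le_mul_left h3 (by positivity)

theorem hSU (h1 : StSA) : StSU := by
  intro n D e0 Cc N Zs lo hi ents b hD hB hR k hk1 hk hk2
  obtain ⟨p1, p2, p3⟩ := one_site h1 n D e0 Cc N Zs lo hi ents b hD hB hR (k - 1) hk1
  obtain ⟨q1, q2, q3⟩ := one_site h1 n D e0 Cc N Zs lo hi ents b hD hB hR k hk
  obtain ⟨r1, r2, r3⟩ := one_site h1 n D e0 Cc N Zs lo hi ents b hD hB hR (k + 1) hk2
  set x := b (k - 1) with hx
  set y := b k with hy
  set z := b (k + 1) with hz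
  set X := T b (k - 1) with hX
  set Y := T b k with hY
  set Z := T b (k + 1) with hZ
  constructor
  · have h2 : X * Z ≤ (x * z) ^ 2 := by
      rw [mul_pow]
      exact mul_le_mul p2 r2 r1.le (by positivity)
    calc (X * Z) * (y ^ 2) ^ 2 ≤ (x * z) ^ 2 * (Cc * Y ^ 2) :=
          mul_le_mul h2 q3 (by positivity) (by positivity)
      _ = Cc * (x * z) ^ 2 * Y ^ 2 := by ring
  · have h2 : (x * z) ^ 2 ≤ Cc * (X * Z) := by
      rw [← sq_le_sq₀ (by positivity) (by positivity)]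
      calc ((x * z) ^ 2) ^ 2 = (x ^ 2) ^ 2 * (z ^ 2) ^ 2 := by ring
        _ ≤ (Cc * X ^ 2) * (Cc * Z ^ 2) := mul_le_mul p3 r3 (by positivity) (by positivity)
        _ = (Cc * (X * Z)) ^ 2 := by ring
    have h3 : Y ^ 2 ≤ (y ^ 2) ^ 2 := pow_le_pow_left₀ q1.le q2 2
    exact mul_le_mul h2 h3 (by positivity) (by positivity)

end Pool.Agent.Helper13.DF
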